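import Mathlib

/-! The Pythagorean inequality for isoperimetric profiles fails for the two-sided exponential law. -/

namespace Pool.Agent.Results.MP_662df3_gt.No

open MeasureTheory Set Filter Topology Metric
open scoped ENNReal

/-- Boundary measure `μ⁺(A) = liminf_(r → 0+) (μ(A_r) - μ(A)) / r`. -/
noncomputable def bdry {X : Type} [PseudoMetricSpace X] [MeasurableSpace X] (μ : Measure X)
    (A : Set X) : ℝ≥0∞ :=
  liminf (fun r : ℝ => (μ (thickening r A) - μ A) / ENNReal.ofReal r) (𝓝[>] 0)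

/-- `R_μ(a) = I_μ(a) / a`, where `I_μ(a)` is the infimum of `μ⁺(A)` over Borel `A` of measure `a`. -/
noncomputable def R {X : Type} [PseudoMetricSpace X] [MeasurableSpace X] (μ : Measure X)
    (a : ℝ) : ℝ≥0∞ :=
  (⨅ (A : Set X) (_ : MeasurableSet A) (_ : μ A = ENNReal.ofReal a), bdry μ A) / ENNReal.ofReal a

/-- The measure on `ℝ` with density `e^(-V)`. -/
noncomputable def law (V : ℝ → ℝ) : Measure ℝ :=
  volume.withDensity fun x => ENNReal.ofReal (Real.exp (-V x))

/-- The product measure on the Euclidean plane. -/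
noncomputable def prodE (μ₁ μ₂ : Measure ℝ) : Measure (EuclideanSpace ℝ (Fin 2)) :=
  (μ₁.prod μ₂).map fun p => WithLp.toLp 2 ![p.1, p.2]

/-- potential of the two-sided exponential law -/
noncomputable def V0 (x : ℝ) : ℝ := |x| + Real.log 2

lemma dens (x : ℝ) : Real.exp (-V0 x) = Real.exp (-|x|) / 2 := by
  rw [V0, neg_add, Real.exp_add, Real.exp_neg (Real.log 2), Real.exp_log two_pos]; ring

lemma lint {s : Set ℝ} (hs : MeasurableSet s) {f : ℝ → ℝ≥0∞} {g : ℝ → ℝ}
    (h : ∀ x ∈ s, f x = ENNReal.ofReal (g x)) (h0 : ∀ x ∈ s, 0 ≤ g x) (hi : IntegrableOn g s) :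
    ∫⁻ x in s, f x = ENNReal.ofReal (∫ x in s, g x) := by
  rw [setLIntegral_congr_fun hs h, ofReal_integral_eq_lintegral_ofReal hi
    ((ae_restrict_iff' hs).2 (Eventually.of_forall h0))]

lemma nu_Iic {z : ℝ} (hz : z ≤ 0) : law V0 (Iic z) = ENNReal.ofReal (Real.exp z / 2) := by
  rw [law, withDensity_apply _ measurableSet_Iic, lint measurableSet_Iic
    (g := fun x => Real.exp x / 2) (fun x hx => by rw [dens, abs_of_nonpos (hx.trans hz), neg_neg])
    (fun x _ => by positivity) ((integrableOn_exp_Iic z).div_const 2), integral_div,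
    integral_exp_Iic]

lemma nu_Ioi {z : ℝ} (hz : 0 ≤ z) : law V0 (Ioi z) = ENNReal.ofReal (Real.exp (-z) / 2) := by
  rw [law, withDensity_apply _ measurableSet_Ioi, lint measurableSet_Ioi
    (g := fun x => Real.exp (-x) / 2) (fun x hx => by rw [dens, abs_of_nonneg (hz.trans hx.le)])
    (fun x _ => by positivity) ((integrableOn_exp_neg_Ioi z).div_const 2), integral_div,
    integral_exp_neg_Ioi]

instance prob : IsProbabilityMeasure (law V0) := ⟨by
  rw [← Iic_union_Ioi (a := (0 : ℝ)), measure_union (Iic_disjoint_Ioi le_rfl) measurableSet_Ioi,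
    nu_Iic le_rfl, nu_Ioi le_rfl, ← ENNReal.ofReal_add (by positivity) (by positivity)]
  norm_num⟩

lemma nu_Iic' {z : ℝ} (hz : 0 ≤ z) :
    law V0 (Iic z) = ENNReal.ofReal (1 - Real.exp (-z) / 2) := by
  rw [← compl_Ioi, prob_compl_eq_one_sub measurableSet_Ioi, nu_Ioi hz,
    ENNReal.ofReal_sub _ (by positivity), ENNReal.ofReal_one]

lemma fub {G : Set ℝ} (hG : MeasurableSet G) :
    law V0 G = ∫⁻ x, volume (G ∩ uIcc 0 x) ∂law V0 := by
  have hP : MeasurableSet {p : ℝ × ℝ | p.1 ∈ G ∧ p.1 ∈ uIcc 0 p.2} :=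
    (measurable_fst hG).inter ((measurableSet_le (by fun_prop) measurable_fst).inter
      (measurableSet_le measurable_fst (by fun_prop)))
  have h1 := Measure.prod_apply (μ := volume) (ν := law V0) hP
  rw [Measure.prod_apply_symm hP] at h1
  refine Eq.trans ?_ h1.symm
  conv_lhs => rw [law, withDensity_apply _ hG, ← lintegral_indicator hG]
  refine lintegral_congr_ae ?_
  have : ∀ᵐ t : ℝ, t ≠ 0 := by simp [ae_iff]
  filter_upwards [this] with t ht
  by_cases h : t ∈ G
  · rw [indicator_of_mem h, dens]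
    rcases ht.lt_or_gt with ht | ht
    · have : Prod.mk t ⁻¹' {p : ℝ × ℝ | p.1 ∈ G ∧ p.1 ∈ uIcc 0 p.2} = Iic t := by
        ext x
        simp only [mem_preimage, mem_ofPred_eq, h, true_and, mem_uIcc, mem_Iic]
        constructor
        · rintro (h | h) <;> linarith [h.1]
        · exact fun h => Or.inr ⟨h, ht.le⟩
      rw [this, nu_Iic ht.le, abs_of_neg ht, neg_neg]
    · have : Prod.mk t ⁻¹' {p : ℝ × ℝ | p.1 ∈ G ∧ p.1 ∈ uIcc 0 p.2} = Ici t := by
        ext x
        simp only [mem_preimage, mem_ofPred_eq, h, true_and, mem_uIcc, mem_Ici]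
        constructor
        · rintro (h | h) <;> linarith [h.2]
        · exact fun h => Or.inl ⟨ht.le, h⟩
      have e : law V0 (Ici t) = law V0 (Ioi t) :=
        measure_congr ((withDensity_absolutelyContinuous _ _).ae_eq Ioi_ae_eq_Ici.symm)
      rw [this, e, nu_Ioi ht.le, abs_of_pos ht]
  · simp [h]

lemma lip {D : ℝ → ℝ} (hD : LipschitzWith 1 D) {c d r x : ℝ} (hc : 0 ≤ c) (hd : d ≤ r)
    (h : Ioo c d ⊆ uIcc (D 0) (D x)) :
    ENNReal.ofReal (d - c) ≤ volume (D ⁻¹' Ioo 0 r ∩ uIcc 0 x) := by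
  have h1 := hD.hausdorffMeasure_image_le (d := 1) zero_le_one (D ⁻¹' Ioo 0 r ∩ uIcc 0 x)
  rw [hausdorffMeasure_real] at h1
  rw [← Real.volume_Ioo]
  refine (measure_mono fun y hy => ?_).trans (by simpa using h1)
  obtain ⟨t, ht, rfl⟩ := intermediate_value_uIcc hD.continuous.continuousOn (h hy)
  exact ⟨t, ⟨⟨hc.trans_lt hy.1, hy.2.trans_le hd⟩, ht⟩, rfl⟩

lemma iso {A : Set ℝ} (hA : MeasurableSet A) (hne : A.Nonempty) {r : ℝ} (hr : 0 < r) :
    ENNReal.ofReal r * min (law V0 A) (law V0 (thickening r A)ᶜ) ≤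
      law V0 (thickening r A \ A) := by
  set D : ℝ → ℝ := fun x => infDist x A
  have hD : LipschitzWith 1 D := lipschitz_infDist_pt A
  have hB : MeasurableSet (thickening r A)ᶜ := isOpen_thickening.measurableSet.compl
  have h0 : 0 ≤ D 0 := infDist_nonneg
  set ρ := min (D 0) r
  have hρ : 0 ≤ ρ := le_min h0 hr.le
  have hρ' : ρ ≤ r := min_le_right _ _
  calc _ = ENNReal.ofReal ρ * min (law V0 A) (law V0 (thickening r A)ᶜ) +
        ENNReal.ofReal (r - ρ) * min (law V0 A) (law V0 (thickening r A)ᶜ) := by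
          rw [← add_mul, ← ENNReal.ofReal_add hρ (by linarith)]; simp
    _ ≤ ENNReal.ofReal ρ * law V0 A + ENNReal.ofReal (r - ρ) * law V0 (thickening r A)ᶜ := by
          gcongr
          exacts [min_le_left _ _, min_le_right _ _]
    _ = ∫⁻ x, A.indicator (fun _ => ENNReal.ofReal ρ) x +
          (thickening r A)ᶜ.indicator (fun _ => ENNReal.ofReal (r - ρ)) x ∂law V0 := by
          rw [lintegral_add_left (measurable_const.indicator hA), lintegral_indicator_const hA,
            lintegral_indicator_const hB]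
    _ ≤ ∫⁻ x, volume (D ⁻¹' Ioo 0 r ∩ uIcc 0 x) ∂law V0 := by
          refine lintegral_mono fun x => ?_
          by_cases hx : x ∈ A
          · rw [indicator_of_mem hx, indicator_of_notMem
              (show x ∉ (thickening r A)ᶜ from fun h => h (self_subset_thickening hr A hx)),
              add_zero]
            have := lip hD (c := 0) (d := ρ) (x := x) le_rfl hρ' fun y hy => mem_uIcc.2 (Or.inr
              ⟨by simpa [D, infDist_zero_of_mem hx] using hy.1.le,
                hy.2.le.trans (min_le_left _ _)⟩)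
            simpa using this
          rw [indicator_of_notMem hx, zero_add]
          by_cases hx' : x ∈ (thickening r A)ᶜ
          · rw [indicator_of_mem hx']
            have h1 : r ≤ D x := by
              by_contra hc
              exact hx' ((mem_thickening_iff_infDist_lt hne).2 (not_le.1 hc))
            refine lip hD hρ le_rfl fun y hy => mem_uIcc.2 (Or.inl ⟨?_, hy.2.le.trans h1⟩)
            rcases le_total (D 0) r with h | h
            · exact (min_eq_left h).symm.le.trans hy.1.le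
            · exact absurd (hy.1.trans hy.2) (by simp [ρ, h])
          · simp [hx']
    _ = law V0 (D ⁻¹' Ioo 0 r) := (fub (hD.continuous.measurable measurableSet_Ioo)).symm
    _ ≤ law V0 (thickening r A \ A) := measure_mono fun x hx => ⟨(mem_thickening_iff_infDist_lt hne).2 hx.2,
          fun h => hx.1.ne' (infDist_zero_of_mem h)⟩

lemma small : ∀ᶠ r : ℝ in 𝓝[>] 0, r ∈ Ioo 0 (1 / 100 : ℝ) := Ioo_mem_nhdsGT (by norm_num)

lemma R_ge {a c : ℝ} (ha : 0 < a) (hc : 0 ≤ c) (h1 : c * (101 / 100) ≤ 1)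
    (h2 : c * a * (101 / 100) ≤ 1 - a) : ENNReal.ofReal c ≤ R (law V0) a := by
  rw [R, ENNReal.le_div_iff_mul_le (Or.inl (by simpa using ha)) (Or.inl ENNReal.ofReal_ne_top),
    ← ENNReal.ofReal_mul hc]
  refine le_iInf fun A => le_iInf fun hA => le_iInf fun hm => le_liminf_of_le (by isBoundedDefault) ?_
  have hne : A.Nonempty := nonempty_of_measure_ne_zero (by rw [hm]; simpa using ha)
  filter_upwards [small] with r hr
  have h := iso hA hne hr.1
  have hs := self_subset_thickening hr.1 A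
  rw [measure_sdiff hs hA.nullMeasurableSet (measure_ne_top _ _),
    prob_compl_eq_one_sub isOpen_thickening.measurableSet] at h
  have hm' := measure_mono (μ := law V0) hs
  have hp := prob_le_one (μ := law V0) (s := thickening r A)
  rw [hm] at h hm' ⊢
  obtain ⟨p, hp0, hp'⟩ : ∃ p : ℝ, 0 ≤ p ∧ law V0 (thickening r A) = ENNReal.ofReal p :=
    ⟨_, ENNReal.toReal_nonneg, (ENNReal.ofReal_toReal (measure_ne_top _ _)).symm⟩
  rw [hp'] at h hm' hp ⊢
  rw [ENNReal.ofReal_le_ofReal_iff hp0] at hm'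
  rw [← ENNReal.ofReal_one, ← ENNReal.ofReal_sub _ hp0, ← ENNReal.ofReal_min,
    ← ENNReal.ofReal_mul hr.1.le, ← ENNReal.ofReal_sub _ ha.le,
    ENNReal.ofReal_le_ofReal_iff (by linarith)] at h
  rw [← ENNReal.ofReal_sub _ ha.le, ← ENNReal.ofReal_div_of_pos hr.1]
  refine ENNReal.ofReal_le_ofReal ((le_div_iff₀ hr.1).2 ?_)
  have h3 := mul_nonneg hc ha.le
  rcases le_total a (1 - p) with h4 | h4
  · rw [min_eq_left h4] at h
    nlinarith [mul_pos hr.1 ha, hr.1, mul_nonneg hc (mul_pos hr.1 ha).le]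
  · rw [min_eq_right h4] at h
    have h5 : r * (1 - a) ≤ (1 + r) * (p - a) := by nlinarith
    have h6 : (1 + r) * (p - a) ≤ 101 / 100 * (p - a) := by
      exact mul_le_mul_of_nonneg_right (by linarith [hr.2]) (by linarith)
    nlinarith [mul_le_mul_of_nonneg_left h2 hr.1.le]

lemma H {s : ℝ} (hs : 0 ≤ s) : prodE (law V0) (law V0) {p | p 0 + p 1 ≤ -s} =
    ENNReal.ofReal ((2 + s) * Real.exp (-s) / 4) := by
  have hm : Measurable fun p : ℝ × ℝ => (WithLp.toLp 2 ![p.1, p.2] : EuclideanSpace ℝ (Fin 2)) := by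
    refine Continuous.measurable ((PiLp.continuous_toLp 2 _).comp (continuous_pi fun i => ?_))
    fin_cases i <;> simp <;> fun_prop
  rw [prodE, Measure.map_apply hm (measurableSet_le (by fun_prop) measurable_const),
    Measure.prod_apply (hm (measurableSet_le (by fun_prop) measurable_const))]
  have e : ∀ x : ℝ, Prod.mk x ⁻¹' ((fun p : ℝ × ℝ => (WithLp.toLp 2 ![p.1, p.2] :
      EuclideanSpace ℝ (Fin 2))) ⁻¹' {p | p 0 + p 1 ≤ -s}) = Iic (-s - x) := by
    intro x; ext y; simp [le_sub_iff_add_le']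
  simp only [e]
  have hF : Measurable fun x : ℝ => law V0 (Iic (-s - x)) :=
    Antitone.measurable fun x y h => measure_mono (Iic_subset_Iic.2 (by linarith))
  refine (lintegral_withDensity_eq_lintegral_mul _ (by unfold V0; fun_prop) hF).trans ?_
  rw [← lintegral_add_compl _ (measurableSet_Iic (a := -s)), compl_Iic,
    ← Ioc_union_Ioi_eq_Ioi (show -s ≤ 0 by linarith),
    lintegral_union measurableSet_Ioi (Ioc_disjoint_Ioi le_rfl)]
  have i1 := (integrableOn_exp_Iic (-s)).div_const 2
  have i2 := (integrableOn_exp_mul_Iic two_pos (-s)).const_mul (Real.exp s / 4)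
  rw [lint measurableSet_Iic (g := fun x => Real.exp x / 2 - Real.exp s / 4 * Real.exp (2 * x))
      (fun x hx => by
        have hx' : x ≤ -s := hx
        simp only [Pi.mul_apply]
        rw [dens, nu_Iic' (by linarith), abs_of_nonpos (by linarith), neg_neg,
          ← ENNReal.ofReal_mul (by positivity), show -(-s - x) = s + x by ring, Real.exp_add,
          two_mul, Real.exp_add]
        congr 1; ring)
      (fun x hx => by
        have hx' : x ≤ -s := hx
        have : Real.exp s * Real.exp x ≤ 1 := by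
          rw [← Real.exp_add]; exact Real.exp_le_one_iff.2 (by linarith)
        rw [two_mul, Real.exp_add]
        nlinarith [Real.exp_pos x]) (i1.sub i2),
    lint measurableSet_Ioc (g := fun _ => Real.exp (-s) / 4)
      (fun x hx => by
        simp only [Pi.mul_apply]
        rw [dens, nu_Iic (by linarith [hx.1]), abs_of_nonpos hx.2, neg_neg,
          ← ENNReal.ofReal_mul (by positivity), show -s = x + (-s - x) by ring, Real.exp_add]
        congr 1; ring_nf)
      (fun x _ => by positivity) (integrableOn_const (by simp)),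
    lint measurableSet_Ioi (g := fun x => Real.exp (-s) / 4 * Real.exp (-2 * x))
      (fun x hx => by
        have hx' : 0 < x := hx
        simp only [Pi.mul_apply]
        rw [dens, nu_Iic (by linarith), abs_of_pos hx', ← ENNReal.ofReal_mul (by positivity),
          show -2 * x = -x + -x by ring, sub_eq_add_neg, Real.exp_add, Real.exp_add]
        congr 1; ring)
      (fun x _ => by positivity) ((integrableOn_exp_mul_Ioi (by norm_num) 0).const_mul _),
    integral_sub i1 i2, integral_div, integral_exp_Iic, integral_const_mul,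
    integral_exp_mul_Iic two_pos, integral_const_mul, integral_exp_mul_Ioi (by norm_num),
    setIntegral_const]
  have e2 : Real.exp s / 4 * (Real.exp (2 * -s) / 2) = Real.exp (-s) / 8 := by
    rw [show -s = s + 2 * -s by ring, Real.exp_add]; ring_nf
  have hp := Real.exp_pos (-s)
  rw [e2, Real.volume_real_Ioc_of_le (by linarith), ← ENNReal.ofReal_add (by
    simp only [smul_eq_mul, sub_neg_eq_add, zero_add]; positivity)
    (by simp only [mul_zero, Real.exp_zero]; linarith), ← ENNReal.ofReal_add (by linarith) (by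
    simp only [smul_eq_mul, sub_neg_eq_add, zero_add, mul_zero, Real.exp_zero]; nlinarith)]
  congr 1
  simp only [smul_eq_mul, mul_zero, Real.exp_zero]
  ring

lemma R_le : R (prodE (law V0) (law V0)) (3 * Real.exp (-1) / 4) ≤ ENNReal.ofReal (97 / 100) := by
  have hp := Real.exp_pos (-1)
  have h1 := H zero_le_one
  rw [show (2 + 1 : ℝ) = 3 by norm_num] at h1
  rw [R, ENNReal.div_le_iff (by simpa using hp) ENNReal.ofReal_ne_top,
    ← ENNReal.ofReal_mul (by norm_num)]
  refine iInf_le_of_le {p : EuclideanSpace ℝ (Fin 2) | p 0 + p 1 ≤ -1} (iInf_le_of_le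
    (measurableSet_le (by fun_prop) measurable_const) (iInf_le_of_le h1
    (liminf_le_of_frequently_le' (Eventually.frequently ?_))))
  filter_upwards [small] with r hr
  have hs : thickening r {p : EuclideanSpace ℝ (Fin 2) | p 0 + p 1 ≤ -1} ⊆
      {p | p 0 + p 1 ≤ -(1 - 142 / 100 * r)} := by
    intro p hp
    obtain ⟨q, hq, hd⟩ := mem_thickening_iff.1 hp
    rw [EuclideanSpace.dist_eq, Fin.sum_univ_two, Real.sqrt_lt' hr.1, Real.dist_eq, Real.dist_eq,
      sq_abs, sq_abs] at hd
    have hq' : q 0 + q 1 ≤ -1 := hq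
    have : p 0 - q 0 + (p 1 - q 1) ≤ 142 / 100 * r :=
      abs_le_of_sq_le_sq' (by nlinarith [sq_nonneg (p 0 - q 0 - (p 1 - q 1)), sq_nonneg r])
        (by linarith [hr.1]) |>.2
    show p 0 + p 1 ≤ _
    linarith
  rw [ENNReal.div_le_iff (by simpa using hr.1) ENNReal.ofReal_ne_top, h1,
    ← ENNReal.ofReal_mul (by positivity)]
  refine (tsub_le_tsub_right (measure_mono hs) _).trans ?_
  rw [H (by linarith [hr.2]), ← ENNReal.ofReal_sub _ (by positivity)]
  refine ENNReal.ofReal_le_ofReal ?_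
  obtain ⟨ε, hε⟩ : ∃ ε : ℝ, ε = 142 / 100 * r := ⟨_, rfl⟩
  rw [← hε, show -(1 - ε) = -1 + ε by ring, Real.exp_add]
  have a1 : Real.exp ε * (1 - ε) ≤ 1 := by
    have := Real.add_one_le_exp (-ε)
    have h2 : Real.exp ε * Real.exp (-ε) = 1 := by rw [← Real.exp_add]; simp
    nlinarith [Real.exp_pos ε]
  have a2 : (3 - ε) * Real.exp ε ≤ 3 + 291 / 100 * r := by
    have b : 0 < 1 - ε := by linarith [hr.2]
    refine le_of_mul_le_mul_right ?_ b
    have : (3 - ε) * (Real.exp ε * (1 - ε)) ≤ (3 - ε) * 1 := by gcongr; linarith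
    nlinarith [hr.1, hr.2]
  nlinarith [mul_le_mul_of_nonneg_left a2 hp.le]

theorem result : ∃ V : ℝ → ℝ, ConvexOn ℝ univ V ∧ (∀ x, V (-x) = V x) ∧
    IsProbabilityMeasure (law V) ∧ ∃ a ∈ Ioo (0 : ℝ) (1 / 2), R (prodE (law V) (law V)) a ^ 2 <
      ⨅ (a₁ : ℝ) (a₂ : ℝ) (_ : a₁ ∈ Ioc (0 : ℝ) 1) (_ : a₂ ∈ Ioc (0 : ℝ) 1) (_ : a₁ * a₂ = a),
        R (law V) a₁ ^ 2 + R (law V) a₂ ^ 2 := by
  have hp := Real.exp_pos (-1)
  have he : Real.exp (-1) < 37 / 100 := Real.exp_neg_one_lt_d9.trans (by norm_num)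
  refine ⟨V0, ?_, fun x => by simp [V0], prob, 3 * Real.exp (-1) / 4, ⟨by positivity, by linarith⟩,
    ?_⟩
  · exact (convexOn_univ_norm (E := ℝ)).add_const _
  refine lt_of_le_of_lt (pow_le_pow_left' R_le 2) (lt_of_lt_of_le (b := ENNReal.ofReal (98 / 100))
    ?_ (le_iInf fun a => le_iInf fun b => le_iInf fun ha => le_iInf fun hb => le_iInf fun h => ?_))
  · rw [← ENNReal.ofReal_pow (by norm_num), ENNReal.ofReal_lt_ofReal_iff (by norm_num)]
    norm_num
  have k1 : ∀ x : ℝ, 0 < x → x ≤ 1 / 2 → ENNReal.ofReal (98 / 100) ≤ R (law V0) x ^ 2 := by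
    intro x h0 hx
    refine le_trans ?_ (pow_le_pow_left' (R_ge (c := 99 / 100) h0 (by norm_num) (by norm_num)
      (by linarith)) 2)
    rw [← ENNReal.ofReal_pow (by norm_num)]
    exact ENNReal.ofReal_le_ofReal (by norm_num)
  have k2 : ∀ x : ℝ, 0 < x → x ≤ 56 / 100 → ENNReal.ofReal (49 / 100) ≤ R (law V0) x ^ 2 := by
    intro x h0 hx
    refine le_trans ?_ (pow_le_pow_left' (R_ge (c := 7 / 10) h0 (by norm_num) (by norm_num)
      (by linarith)) 2)
    rw [← ENNReal.ofReal_pow (by norm_num)]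
    exact ENNReal.ofReal_le_ofReal (by norm_num)
  by_cases h1 : a ≤ 1 / 2
  · exact (k1 a ha.1 h1).trans le_self_add
  by_cases h2 : b ≤ 1 / 2
  · exact (k1 b hb.1 h2).trans le_add_self
  push Not at h1 h2
  refine le_trans ?_ (add_le_add (k2 a ha.1 (by nlinarith)) (k2 b hb.1 (by nlinarith)))
  rw [← ENNReal.ofReal_add (by norm_num) (by norm_num)]
  exact ENNReal.ofReal_le_ofReal (by norm_num)

end Pool.Agent.Results.MP_662df3_gt.No
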